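import Pool.Agent.Helper46.RM.Main

/-!
# MP_149cd4_co, Q1: a positive answer

For every `k` there is `N` such that every finite graph `G` with a `k`-matching-planar drawing `D` (any drawing: the curves need not be proper) has a proper
drawing `D'` which is `N`-matching-planar and in which no `N` edges at a common vertex cross pairwise.

Project RM: helper46 (architect), helper76 (architect of the part REAL: realization of lattice routes by proper polygonal drawings), with the authors of the blocks.
The proof is described in the headers of the files `Pool/Agent/Helper46/RM/*.lean` and `Pool/Agent/Helper76/RL/*.lean`.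
-/

namespace Pool.Agent.Results.MP_149cd4_co.Redraw

open Pool.Agent.Helper46.RM

theorem result (k : ℕ) : ∃ N : ℕ, ∀ (V : Type) [Fintype V] (G : SimpleGraph V) (D : Drawing G), D.MatchingPlanar k →
    ∃ D' : Drawing G, D'.Proper ∧ D'.MatchingPlanar N ∧ D'.NoFan N :=
  main k

end Pool.Agent.Results.MP_149cd4_co.Redraw
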